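import Mathlib
import Pool.Agent.Work.MP_586029_ag.Defs
import Pool.Agent.Work.MP_586029_ag.PartG

/-!
# Two non-trivial geproci sets with isomorphic matroids that are not projectively equivalent

This answers question Q1 of the problem in the negative. The two sets consist of 24 points, six on
each of four pairwise skew lines; each of them is the union of two projectively equivalent copies
of the configuration of 12 points coming from the root system of type `D₄`, and is geproci as the
general projection is the complete intersection of a curve of degree 4 and a curve of degree 6.
The sets are conjugate under a field automorphism (so that their matroids are isomorphic), but the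
six points on a line are concyclic in one of them and not in the other one.

All the definitions are in `Pool/Agent/Work/MP_586029_ag/Defs.lean`.
-/

namespace Pool.Agent.Results.MP_586029_ag.MatroidVsProjective

open Pool.Agent.Work.MP_586029_ag

/-- There are two non-trivial geproci sets in `ℙ³` whose matroids are isomorphic and which are not
projectively equivalent. -/
theorem result : ∃ Z Z' : Set (Projectivization ℂ (Fin 4 → ℂ)),
    IsNontrivialGeproci Z ∧ IsNontrivialGeproci Z' ∧
    MatroidIso (n := 3) Z Z' ∧ ¬ ProjEquiv (n := 3) Z Z' :=
  main

end Pool.Agent.Results.MP_586029_ag.MatroidVsProjective
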